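import Pool.Agent.Helper30.DL.GoalsB

/-! # Project DL, packet GRM -/

set_option autoImplicit false

open Complex (I)
open Finset

namespace Pool.Agent.Helper85.DL

open Pool.Agent.Helper30.DL

lemma SS_comm (k : ℕ) (t : ℝ) (u v : ℕ → ℝ) : SS k t u v = SS k t v u := by
  unfold SS
  congr 1
  exact Finset.sum_congr rfl fun j _ => mul_comm _ _

lemma SS_lin (k : ℕ) (t a b c d : ℝ) (f1 f2 f3 f4 g : ℕ → ℝ) :
    SS k t (fun j => a * f1 j + b * f2 j + c * f3 j + d * f4 j) g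
      = a * SS k t f1 g + b * SS k t f2 g + c * SS k t f3 g + d * SS k t f4 g := by
  unfold SS
  have h : ∀ (x : ℝ) (f : ℕ → ℝ), x * (th t * ∑ j ∈ range k, f j * g j)
      = th t * ∑ j ∈ range k, x * (f j * g j) := by
    intro x f
    rw [← Finset.mul_sum]
    ring
  rw [h, h, h, h, ← mul_add, ← mul_add, ← mul_add, ← Finset.sum_add_distrib,
    ← Finset.sum_add_distrib, ← Finset.sum_add_distrib]
  congr 1
  exact Finset.sum_congr rfl fun j _ => by ring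

lemma SS_add (k : ℕ) (t : ℝ) (f1 f2 g : ℕ → ℝ) :
    SS k t (fun j => f1 j + f2 j) g = SS k t f1 g + SS k t f2 g := by
  unfold SS
  rw [← mul_add, ← Finset.sum_add_distrib]
  congr 1
  exact Finset.sum_congr rfl fun j _ => by ring

lemma Bl_append (k : ℕ) (t : ℝ) (B : List Tm) (x : Tm) :
    Bl k t (B ++ [x]) = fun j => Bl k t B j + Bf k t x j := by
  funext j
  simp [Bl]

lemma Bf_lam (hC : CstStmt) {k : ℕ} (hk : 3 ≤ k) {t : ℝ} (ht : t = tau k) (ν : ℂ) (j : ℕ) :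
    Bf k t ⟨ν, 1, 0⟩ j = (ν * lam t ^ j).re := by
  obtain ⟨-, -, -, -, -, -, -, -, -, -, -, -, -, -, -, -, -, -, -, -, -, -, -, -, hex, -⟩ :=
    hC k hk t ht
  have h := hex (j : ℤ)
  rw [zpow_natCast] at h
  unfold Bf
  simp only [pow_zero, one_mul]
  rw [h]

lemma SS_lam (hC : CstStmt) {k : ℕ} (hk : 3 ≤ k) {t : ℝ} (ht : t = tau k) (ν : ℂ) (z : ℝ)
    (D : ℕ → ℝ)
    (h0 : lam t ^ k * (z : ℂ) + (th t : ℂ) * ∑ j ∈ range k, lam t ^ j * (D j : ℂ) = 0) :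
    SS k t (Bf k t ⟨ν, 1, 0⟩) D = -(z * (ν * lk t).re) := by
  have hlk : lam t ^ k = lk t := by
    obtain ⟨-, -, -, -, -, -, h, -⟩ := hC k hk t ht
    exact h
  have h1 : (ν * (lam t ^ k * (z : ℂ) + (th t : ℂ) * ∑ j ∈ range k, lam t ^ j * (D j : ℂ))).re
      = 0 := by
    rw [h0, mul_zero, Complex.zero_re]
  rw [hlk, mul_add, Complex.add_re] at h1
  have h2 : (ν * (lk t * (z : ℂ))).re = z * (ν * lk t).re := by
    rw [← mul_assoc, Complex.re_mul_ofReal]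
    ring
  have h3 : (ν * ((th t : ℂ) * ∑ j ∈ range k, lam t ^ j * (D j : ℂ))).re
      = SS k t (Bf k t ⟨ν, 1, 0⟩) D := by
    unfold SS
    rw [← mul_assoc, mul_comm ν (th t : ℂ), mul_assoc, Complex.re_ofReal_mul, Finset.mul_sum,
      Complex.re_sum]
    congr 1
    refine Finset.sum_congr rfl fun j _ => ?_
    rw [Bf_lam hC hk ht, ← mul_assoc, Complex.re_mul_ofReal]
  rw [h2, h3] at h1
  linarith

theorem grm (hC : CstStmt) (hI : IplStmt) (hM : MinqStmt) : GrmStmt := by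
  intro k hk t ht P z v1 v2 v3 z0 D hr1 hc hgg h0 hz0
  have htpos : 0 < t := (hC k hk t ht).1
  -- conditions of IPL
  have c0 : ∀ x ∈ B0 P, x.f ≤ 1 ∧ -2 ≤ x.m ∧ x.m ≤ 2 := by
    intro x hx
    simp only [B0, List.mem_cons, List.not_mem_nil, or_false] at hx
    subst hx
    exact ⟨by norm_num, by norm_num, by norm_num⟩
  have c1 : ∀ x ∈ B1 P t, x.f ≤ 1 ∧ -2 ≤ x.m ∧ x.m ≤ 2 := by
    intro x hx
    simp only [B1, List.mem_cons, List.not_mem_nil, or_false] at hx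
    rcases hx with rfl | rfl | rfl | rfl <;> exact ⟨by norm_num, by norm_num, by norm_num⟩
  have c2 : ∀ x ∈ B2 P t, x.f ≤ 1 ∧ -2 ≤ x.m ∧ x.m ≤ 2 := by
    intro x hx
    simp only [B2, List.mem_cons, List.not_mem_nil, or_false] at hx
    rcases hx with rfl | rfl | rfl <;> exact ⟨by norm_num, by norm_num, by norm_num⟩
  have c3 : ∀ x ∈ B3 P t, x.f ≤ 1 ∧ -2 ≤ x.m ∧ x.m ≤ 2 := by
    intro x hx
    simp only [B3, List.mem_cons, List.not_mem_nil, or_false] at hx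
    rcases hx with rfl | rfl <;> exact ⟨by norm_num, by norm_num, by norm_num⟩
  have c4 : ∀ x ∈ B4 P, x.f ≤ 1 ∧ -2 ≤ x.m ∧ x.m ≤ 2 := by
    intro x hx
    simp only [B4, List.mem_cons, List.not_mem_nil, or_false] at hx
    rcases hx with rfl | rfl <;> exact ⟨by norm_num, by norm_num, by norm_num⟩
  -- the raw functions
  have e0 : SS k t (Bl k t (B0 P)) D = -(z * (P.nu0 * lk t).re) := by
    rw [← SS_lam hC hk ht P.nu0 z D h0]
    congr 1
    funext j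
    simp [Bl, B0]
  have e1 : SS k t (Bl k t (B1 P t)) D = SS k t (Bl k t (B1r P t)) D
      + -(z * (P.nu1 * lk t).re) := by
    have : B1 P t = B1r P t ++ [⟨P.nu1, 1, 0⟩] := rfl
    rw [this, Bl_append, SS_add, ← SS_lam hC hk ht P.nu1 z D h0]
  have e2 : SS k t (Bl k t (B2 P t)) D = SS k t (Bl k t (B2r P t)) D
      + -(z * (P.nu2 * lk t).re) := by
    have : B2 P t = B2r P t ++ [⟨P.nu2, 1, 0⟩] := rfl
    rw [this, Bl_append, SS_add, ← SS_lam hC hk ht P.nu2 z D h0]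
  have e3 : SS k t (Bl k t (B3 P t)) D = SS k t (Bl k t (B3r P t)) D
      + -(z * (P.nu3 * lk t).re) := by
    have : B3 P t = B3r P t ++ [⟨P.nu3, 1, 0⟩] := rfl
    rw [this, Bl_append, SS_add, ← SS_lam hC hk ht P.nu3 z D h0]
  have e4 : z0 = z * (1 - (P.xi * lk t).re) + SS k t (Bl k t (B4 P)) D := by
    have h4 : B4 P = [⟨1, 0, 0⟩] ++ [⟨-P.xi, 1, 0⟩] := rfl
    rw [h4, Bl_append, SS_add, SS_lam hC hk ht (-P.xi) z D h0, hz0]
    have h5 : SS k t (Bl k t [⟨1, 0, 0⟩]) D = th t * ∑ j ∈ range k, D j := by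
      unfold SS
      congr 1
      refine Finset.sum_congr rfl fun j _ => ?_
      have : ex t 0 = 1 := by simp [ex]
      simp [Bl, Bf, this]
    rw [h5, neg_mul, Complex.neg_re]
    ring
  -- the minimum
  have hb : SS k t (Bl k t (B4 P)) (Bl k t (B4 P)) = gg P t :=
    (hI k hk t ht _ _ c4 c4).symm
  have hm := hM k t P.r1 P.c1h (z * (1 - (P.xi * lk t).re)) (Bl k t (B4 P))
    (fun j => z * Bl k t (B0 P) j + v1 * Bl k t (B1 P t) j + v2 * Bl k t (B2 P t) j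
      + v3 * Bl k t (B3 P t) j) D htpos hr1 hc (by rw [hb]; exact hgg)
  rw [← e4, hb] at hm
  simp only [SS_lin] at hm
  rw [e0, e1, e2, e3] at hm
  have x (f : ℕ → ℝ) : SS k t f (fun j => z * Bl k t (B0 P) j + v1 * Bl k t (B1 P t) j
      + v2 * Bl k t (B2 P t) j + v3 * Bl k t (B3 P t) j)
      = z * SS k t (Bl k t (B0 P)) f + v1 * SS k t (Bl k t (B1 P t)) f
        + v2 * SS k t (Bl k t (B2 P t)) f + v3 * SS k t (Bl k t (B3 P t)) f := by
    rw [SS_comm, SS_lin]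
  rw [x, x, x, x] at hm
  rw [SS_comm k t (Bl k t (B1 P t)) (Bl k t (B0 P)), SS_comm k t (Bl k t (B2 P t)) (Bl k t (B0 P)),
    SS_comm k t (Bl k t (B3 P t)) (Bl k t (B0 P)),
    SS_comm k t (Bl k t (B2 P t)) (Bl k t (B1 P t)),
    SS_comm k t (Bl k t (B3 P t)) (Bl k t (B1 P t)),
    SS_comm k t (Bl k t (B3 P t)) (Bl k t (B2 P t))] at hm
  rw [← hI k hk t ht _ _ c0 c0, ← hI k hk t ht _ _ c0 c1, ← hI k hk t ht _ _ c0 c2,
    ← hI k hk t ht _ _ c0 c3, ← hI k hk t ht _ _ c1 c1, ← hI k hk t ht _ _ c1 c2,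
    ← hI k hk t ht _ _ c1 c3, ← hI k hk t ht _ _ c2 c2, ← hI k hk t ht _ _ c2 c3,
    ← hI k hk t ht _ _ c3 c3, ← hI k hk t ht _ _ c0 c4, ← hI k hk t ht _ _ c1 c4,
    ← hI k hk t ht _ _ c2 c4, ← hI k hk t ht _ _ c3 c4] at hm
  simp only [mkG, Gm, tv0, tv1, tv2, tv3, c1p]
  linarith

end Pool.Agent.Helper85.DL
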